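import Pool.Agent.MP_6bb8b9_an.Stmt.Bridge

/-!
Question 2: the strong-type two-weight bound for maximal Calderon-Zygmund operators under the
separated bump condition, for all rearrangement-invariant Banach function spaces.
-/

open MeasureTheory Set
open scoped ENNReal NNReal
open Pool.Agent.MP_6bb8b9_an Pool.Agent.MP_6bb8b9_an.Stmt

namespace Pool.Agent.Results.MP_6bb8b9_an.StrongBump

/-- The separated bump constant: the supremum over all cubes of the sum of the two one-sided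
bump expressions. -/
noncomputable def sepBumpConst {n : ℕ} (ρ τ : (EuclideanSpace ℝ (Fin n) → ℝ≥0∞) → ℝ≥0∞)
    (u σ : EuclideanSpace ℝ (Fin n) → ℝ≥0) (p p' : ℝ) : ℝ≥0∞ :=
  ⨆ (a : EuclideanSpace ℝ (Fin n)) (l : ℝ) (_ : 0 < l),
    (localNorm ρ (fun x => (u x : ℝ≥0∞) ^ (1 / p)) a l *
      avg (fun x => (σ x : ℝ≥0∞)) a l ^ (1 / p') +
    avg (fun x => (u x : ℝ≥0∞)) a l ^ (1 / p) *
      localNorm τ (fun x => (σ x : ℝ≥0∞) ^ (1 / p')) a l)

theorem result {n : ℕ} (hn : 0 < n) {𝕜 : Type} [RCLike 𝕜] {p p' : ℝ}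
    (hp : p.HolderConjugate p')
    (T : (EuclideanSpace ℝ (Fin n) → 𝕜) → EuclideanSpace ℝ (Fin n) → 𝕜)
    (K : EuclideanSpace ℝ (Fin n) → EuclideanSpace ℝ (Fin n) → 𝕜) (hT : IsCZO volume n T K) :
    ∃ C : ℝ≥0, ∀ u σ : EuclideanSpace ℝ (Fin n) → ℝ≥0,
      LocallyIntegrable (fun x => (u x : ℝ)) volume →
      LocallyIntegrable (fun x => (σ x : ℝ)) volume →
      ∀ ρ τ : (EuclideanSpace ℝ (Fin n) → ℝ≥0∞) → ℝ≥0∞, IsRINorm volume ρ → IsRINorm volume τ →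
      maxOpNorm (assocNorm volume ρ) p' < ∞ → maxOpNorm (assocNorm volume τ) p < ∞ →
      sepBumpConst ρ τ u σ p p' < ∞ →
      ∀ f : EuclideanSpace ℝ (Fin n) → 𝕜,
        MemLp f (ENNReal.ofReal p) (volume.withDensity fun x => (σ x : ℝ≥0∞)) →
        Measurable (maxSing volume K fun y => (σ y : ℝ) • f y) ∧
        eLpNorm (maxSing volume K fun y => (σ y : ℝ) • f y) (ENNReal.ofReal p)
            (volume.withDensity fun x => (u x : ℝ≥0∞)) ≤
          C * sepBumpConst ρ τ u σ p p' *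
            (maxOpNorm (assocNorm volume ρ) p' + maxOpNorm (assocNorm volume τ) p) *
            eLpNorm f (ENNReal.ofReal p) (volume.withDensity fun x => (σ x : ℝ≥0∞)) := by
  obtain ⟨T', hT'⟩ := hT.toH2
  obtain ⟨C, hC⟩ := H2.strong_main hn hp hT'
  obtain ⟨c, δ, hK⟩ := hT'.exists_KB
  refine ⟨C, fun u σ hu hσ ρ τ hρ hτ hN hN' hB f hf => ?_⟩
  have hN1 : H2.maxOpNorm (H2.assocNorm ρ) p' < ∞ := hN
  have hN2 : H2.maxOpNorm (H2.assocNorm τ) p < ∞ := hN'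
  obtain ⟨u', hu'm, huu', hu'fin⟩ := H2.exists_borel_weight hu
  obtain ⟨σ', hσ'm, hσσ', hσ'fin⟩ := H2.exists_borel_weight hσ
  obtain ⟨hg, F, hF, hgF, hfin, hnorm⟩ := H2.reduce_fun hp hσ'm hσσ' hσ'fin hf
  refine ⟨H2.measurable_maxSing hK hg.aestronglyMeasurable, ?_⟩
  have h1 : (fun x => (u x : ℝ≥0∞)) =ᵐ[volume] fun x => (u' x : ℝ≥0∞) := by
    filter_upwards [huu'] with x hx; rw [hx]
  have h2 : (fun x => (σ x : ℝ≥0∞)) =ᵐ[volume] fun x => (σ' x : ℝ≥0∞) := by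
    filter_upwards [hσσ'] with x hx; rw [hx]
  have h3 := hC ρ τ hρ.toH2 hτ.toH2 _ _ hu'm.coe_nnreal_ennreal hσ'm.coe_nnreal_ennreal hu'fin hσ'fin
    (sepBumpConst ρ τ u σ p p').toNNReal _ _ (fun a l hl => ?_) (fun a l hl => ?_)
    (H2.MB_of_maxOpNorm hp.symm.pos hN1) (H2.MB_of_maxOpNorm hp.pos hN2) _ hg F hF hgF hfin
  · rw [ENNReal.coe_toNNReal hB.ne, ENNReal.coe_toNNReal hN1.ne, ENNReal.coe_toNNReal hN2.ne,
      hnorm, ← withDensity_congr_ae h1, ← H2.eLpNorm_ennreal hp.pos] at h3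
    exact h3
  · rw [ENNReal.coe_toNNReal hB.ne, ← H2.avg_congr h2,
      hρ.toH2.localNorm_congr (f := fun x => (u x : ℝ≥0∞) ^ (1 / p))
        (hu'm.coe_nnreal_ennreal.pow_const _) (by filter_upwards [huu'] with x hx; rw [hx]) a hl]
    exact le_iSup_of_le a (le_iSup_of_le l (le_iSup_of_le hl le_self_add))
  · rw [ENNReal.coe_toNNReal hB.ne, ← H2.avg_congr h1,
      hτ.toH2.localNorm_congr (f := fun x => (σ x : ℝ≥0∞) ^ (1 / p'))
        (hσ'm.coe_nnreal_ennreal.pow_const _) (by filter_upwards [hσσ'] with x hx; rw [hx]) a hl,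
      mul_comm]
    exact le_iSup_of_le a (le_iSup_of_le l (le_iSup_of_le hl le_add_self))

end Pool.Agent.Results.MP_6bb8b9_an.StrongBump
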