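import Pool.Agent.MP_6bb8b9_an.Stmt.Bridge

/-!
Question 1: the weak-type two-weight bound for maximal Calderon-Zygmund operators under the
one-sided bump condition, for every rearrangement-invariant Banach function space.
-/

open MeasureTheory Set
open scoped ENNReal NNReal
open Pool.Agent.MP_6bb8b9_an Pool.Agent.MP_6bb8b9_an.Stmt

namespace Pool.Agent.Results.MP_6bb8b9_an.WeakBump

/-- The bump constant: the supremum over all cubes of the local norm of `u ^ (1/p)` times the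
average of `σ` to the power `1/p'`. -/
noncomputable def bumpConst {n : ℕ} (ρ : (EuclideanSpace ℝ (Fin n) → ℝ≥0∞) → ℝ≥0∞)
    (u σ : EuclideanSpace ℝ (Fin n) → ℝ≥0) (p p' : ℝ) : ℝ≥0∞ :=
  ⨆ (a : EuclideanSpace ℝ (Fin n)) (l : ℝ) (_ : 0 < l),
    localNorm ρ (fun x => (u x : ℝ≥0∞) ^ (1 / p)) a l *
      avg (fun x => (σ x : ℝ≥0∞)) a l ^ (1 / p')

theorem result {n : ℕ} (hn : 0 < n) {𝕜 : Type} [RCLike 𝕜] {p p' : ℝ}
    (hp : p.HolderConjugate p')
    (T : (EuclideanSpace ℝ (Fin n) → 𝕜) → EuclideanSpace ℝ (Fin n) → 𝕜)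
    (K : EuclideanSpace ℝ (Fin n) → EuclideanSpace ℝ (Fin n) → 𝕜) (hT : IsCZO volume n T K) :
    ∃ C : ℝ≥0, ∀ u σ : EuclideanSpace ℝ (Fin n) → ℝ≥0,
      LocallyIntegrable (fun x => (u x : ℝ)) volume →
      LocallyIntegrable (fun x => (σ x : ℝ)) volume →
      ∀ ρ : (EuclideanSpace ℝ (Fin n) → ℝ≥0∞) → ℝ≥0∞, IsRINorm volume ρ →
      maxOpNorm (assocNorm volume ρ) p' < ∞ → bumpConst ρ u σ p p' < ∞ →
      ∀ f : EuclideanSpace ℝ (Fin n) → 𝕜,
        MemLp f (ENNReal.ofReal p) (volume.withDensity fun x => (σ x : ℝ≥0∞)) →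
        weakNorm (maxSing volume K fun y => (σ y : ℝ) • f y) p
            (volume.withDensity fun x => (u x : ℝ≥0∞)) ≤
          C * bumpConst ρ u σ p p' * maxOpNorm (assocNorm volume ρ) p' *
            eLpNorm f (ENNReal.ofReal p) (volume.withDensity fun x => (σ x : ℝ≥0∞)) := by
  obtain ⟨T', hT'⟩ := hT.toH2
  obtain ⟨C, hC⟩ := H2.weak_main hn hp hT'
  refine ⟨C, fun u σ hu hσ ρ hρ hN hB f hf => ?_⟩
  have hN1 : H2.maxOpNorm (H2.assocNorm ρ) p' < ∞ := hN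
  obtain ⟨u', hu'm, huu', hu'fin⟩ := H2.exists_borel_weight hu
  obtain ⟨σ', hσ'm, hσσ', hσ'fin⟩ := H2.exists_borel_weight hσ
  obtain ⟨hg, F, hF, hgF, -, hnorm⟩ := H2.reduce_fun hp hσ'm hσσ' hσ'fin hf
  have h1 : (fun x => (u x : ℝ≥0∞)) =ᵐ[volume] fun x => (u' x : ℝ≥0∞) := by
    filter_upwards [huu'] with x hx; rw [hx]
  have h2 : (fun x => (σ x : ℝ≥0∞)) =ᵐ[volume] fun x => (σ' x : ℝ≥0∞) := by
    filter_upwards [hσσ'] with x hx; rw [hx]
  have h3 := hC ρ hρ.toH2 _ _ hu'm.coe_nnreal_ennreal hσ'm.coe_nnreal_ennreal hu'fin hσ'fin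
    (bumpConst ρ u σ p p').toNNReal _ (fun a l hl => ?_) (H2.MB_of_maxOpNorm hp.symm.pos hN1) _ hg F hF
    hgF
  · rw [ENNReal.coe_toNNReal hB.ne, ENNReal.coe_toNNReal hN1.ne, hnorm,
      ← withDensity_congr_ae h1] at h3
    exact h3
  · rw [ENNReal.coe_toNNReal hB.ne, ← H2.avg_congr h2,
      hρ.toH2.localNorm_congr (f := fun x => (u x : ℝ≥0∞) ^ (1 / p))
        (hu'm.coe_nnreal_ennreal.pow_const _) (by filter_upwards [huu'] with x hx; rw [hx]) a hl]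
    exact le_iSup_of_le a (le_iSup_of_le l (le_iSup_of_le hl le_rfl))

end Pool.Agent.Results.MP_6bb8b9_an.WeakBump
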